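import Pool.Agent.L7h85.SE.Core

/-!
# Polarized endomorphisms are semisimple modulo numerical equivalence

`X` is a smooth projective variety over an algebraically closed field of any characteristic, `f` a polarized
endomorphism of `X`. The operator `f^*` is semisimple in the ring of the correspondences modulo numerical
equivalence; so the subring of `H^*(X)` generated by the classes killed by the numerically trivial
correspondences (for example the classes of degree one and of divisors) is contained in the sum of the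
eigenspaces of `f^*`. It is diagonalizable on `H^*(X)`, and on the cohomology of every variety specializing to `X`,
if the motive of `X` is a direct summand of the motive of a variety `Y` such that homological and numerical
equivalence agree on `Y × Y`, for example of a `Y` over a finite field with semisimple Frobenius and the Tate
conjecture for `Y × Y`: this is known if `Y` is a K3 surface (Ito-Ito-Koshikawa 2021, Deligne 1972).
No positivity (Hodge standard conjecture) and no Lefschetz standard conjecture are assumed.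

PROOF. `L = pr₁^* H + pr₂^* H` is ample on `X × X` and `(f × f)^* L = q L`. For an effective cycle `α` of
dimension `n` on `X × X` the degree of `(f × f)^* α` is `qⁿ` times the degree of `α`, and the degree bounds all
intersection numbers of an effective cycle. So `q⁻ⁿ (f × f)^*`, which is the conjugation by `f^*`, has bounded
orbits modulo numerical equivalence; it preserves the intersection form, so its inverse has, too, and it is
semisimple. Let `ν` be the nilpotent part of `f^*` modulo numerical equivalence; by the uniqueness of the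
Jordan decomposition (of left and right multiplication by `f^*`) `ν (f^*)⁻¹` is central, so it generates a
nilpotent ideal; the traces of nilpotent correspondences are zero, so `ν` is numerically trivial.
-/

set_option autoImplicit false

open Polynomial

namespace Pool.Agent.Results.MP_e95b71_ag.ModuloNumerical

section defs

variable {F V : Type} [Field F] [CharZero F] [AddCommGroup V] [Module F V] [Module ℚ V]

/-- The correspondences of degree zero of a smooth projective variety `X` of dimension `n`, as operators of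
`V = H^*(X)` (coefficients `F`, for example the algebraic closure of `ℚ_ℓ`): they are given by the cycles of
dimension `n` on `X × X`. -/
structure Correspondences (F V : Type) [Field F] [CharZero F] [AddCommGroup V] [Module F V]
    [Module ℚ V] where
  /-- `(-1)ⁱ` on `Hⁱ(X)` -/
  sign : Module.End F V
  sign_sq : sign * sign = 1
  /-- the operators given by the cycles with rational coefficients; they can be composed -/
  cyc : Subalgebra ℚ (Module.End F V)
  /-- the operators given by the effective cycles -/
  eff : Set (Module.End F V)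
  /-- every cycle is a combination of effective cycles -/
  span_eff : Submodule.span ℚ eff = Subalgebra.toSubmodule cyc
  /-- correspondences of degree zero preserve every `Hⁱ(X)` -/
  comm : ∀ α ∈ cyc, sign * α = α * sign
  /-- the intersection numbers with the diagonal, `∑ (-1)ⁱ Tr(α | Hⁱ(X))`, are rational -/
  rational : ∀ α ∈ cyc, ∃ r : ℚ, (r : F) = LinearMap.trace F V (sign * α)

/-- the intersection number of `α` and the transpose of `β`: `∑ (-1)ⁱ Tr(α β | Hⁱ(X))` -/
noncomputable def Correspondences.inter (C : Correspondences F V) (α β : Module.End F V) : F :=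
  LinearMap.trace F V (C.sign * (α * β))

/-- the correspondence `α` is numerically trivial -/
def Correspondences.NumTrivial (C : Correspondences F V) (α : Module.End F V) : Prop :=
  α ∈ C.cyc ∧ ∀ β ∈ C.cyc, C.inter α β = 0

/-- homological and numerical equivalence agree for the cycles of dimension `n` on `X × X` -/
def Correspondences.HomEqNum (C : Correspondences F V) : Prop := ∀ α, C.NumTrivial α → α = 0

/-- `φ = f^*` for an endomorphism `f` of `X` with `f^* H = q H`, `H` ample, `ψ = f_*`, `lam` is the class of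
`Lⁿ` for `L = pr₁^* H + pr₂^* H` on `X × X`; these are properties of `f`:
`f_* f^* = deg f = qⁿ`; `(f × f)^* α = f^* α f_*` is effective if `α` is effective; `(f × f)^* Lⁿ = qⁿ Lⁿ`; and the
degree `α · Lⁿ` bounds the intersection numbers of the effective `α` with every fixed cycle -/
structure IsPolarized (C : Correspondences F V) (n q : ℕ) (φ ψ lam : Module.End F V) : Prop where
  pos : 0 < q
  pull_mem : φ ∈ C.cyc
  push_mem : ψ ∈ C.cyc
  ample_mem : lam ∈ C.cyc
  push_pull : ψ * φ = (q : ℚ) ^ n • (1 : Module.End F V)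
  eff_pull : ∀ α ∈ C.eff, φ * α * ψ ∈ C.eff
  ample_pull : φ * lam * ψ = (q : ℚ) ^ n • lam
  bounded : ∀ β ∈ C.cyc, ∃ c : ℚ, ∀ α ∈ C.eff, ∀ r s : ℚ, (r : F) = C.inter α β →
    (s : F) = C.inter α lam → |r| ≤ c * s

end defs

/-- the motive of `X` is a direct summand (up to an even shift of the degree) of the motive of `Y`: there are
correspondences `i : H^*(X) → H^*(Y)`, `p : H^*(Y) → H^*(X)` with `p i = 1` -/
structure IsSummand {F V W : Type} [Field F] [CharZero F] [AddCommGroup V] [Module F V] [Module ℚ V]
    [AddCommGroup W] [Module F W] [Module ℚ W] (CX : Correspondences F V) (CY : Correspondences F W)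
    (i : V →ₗ[F] W) (p : W →ₗ[F] V) : Prop where
  split : ∀ v, p (i v) = v
  sign : ∀ v, i (CX.sign v) = CY.sign (i v)
  push : ∀ α ∈ CX.cyc, i ∘ₗ α ∘ₗ p ∈ CY.cyc
  pull : ∀ β ∈ CY.cyc, p ∘ₗ β ∘ₗ i ∈ CX.cyc

/-- `S` is contained in the subring generated by `U` for the product `m`: in every subspace which contains
`U` and is closed under `m` -/
def GeneratedBy {F V : Type} [Field F] [AddCommGroup V] [Module F V] (m : V →ₗ[F] V →ₗ[F] V)
    (U S : Submodule F V) : Prop :=
  ∀ S' : Submodule F V, U ≤ S' → (∀ x ∈ S', ∀ y ∈ S', m x y ∈ S') → S ≤ S'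

/-- `Y` is defined over a finite field, `Fr` is its Frobenius on `H^*(Y)`: it preserves every `Hⁱ(Y)`, commutes
with the cycles, is semisimple, and the Tate conjecture holds for the cycles of dimension `n` on `Y × Y`:
all operators commuting with `Fr` are combinations of cycles (by Weil II they preserve every `Hⁱ(Y)`) -/
structure IsTate {F V : Type} [Field F] [CharZero F] [AddCommGroup V] [Module F V] [Module ℚ V]
    (C : Correspondences F V) (Fr : Module.End F V) : Prop where
  sign : C.sign * Fr = Fr * C.sign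
  comm : ∀ α ∈ C.cyc, α * Fr = Fr * α
  semisimple : Fr.IsSemisimple
  tate : ∀ β : Module.End F V, β * Fr = Fr * β → β ∈ Submodule.span F (C.cyc : Set (Module.End F V))

section proofs

variable {F V : Type} [Field F] [CharZero F] [AddCommGroup V] [Module F V] [Module ℚ V]
  [FiniteDimensional F V] (C : Correspondences F V)

/-- the intersection number with the diagonal, as a rational number -/
noncomputable def tr : C.cyc →ₗ[ℚ] ℚ where
  toFun α := (C.rational α α.2).choose
  map_add' α β := by
    have h1 := (C.rational α α.2).choose_spec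
    have h2 := (C.rational β β.2).choose_spec
    have h3 := (C.rational (α + β : C.cyc) (α + β : C.cyc).2).choose_spec
    apply (Rat.cast_injective (α := F))
    rw [Rat.cast_add, h1, h2, h3, ← map_add]
    congr 1
    change C.sign * ((α : Module.End F V) + β) = _
    rw [mul_add]
  map_smul' r α := by
    have h1 := (C.rational α α.2).choose_spec
    have h3 := (C.rational (r • α : C.cyc) (r • α : C.cyc).2).choose_spec
    apply (Rat.cast_injective (α := F))
    rw [RingHom.id_apply, smul_eq_mul, Rat.cast_mul, h1, h3]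
    change LinearMap.trace F V (C.sign * (r • (α : Module.End F V))) = _
    have : C.sign * (r • (α : Module.End F V)) = (r : F) • (C.sign * (α : Module.End F V)) := by
      rw [mul_smul_comm]
      ext v
      simp [Rat.cast_smul_eq_qsmul]
    rw [this, map_smul, smul_eq_mul]

lemma tr_spec (α : C.cyc) : ((tr C α : ℚ) : F) = LinearMap.trace F V (C.sign * α) :=
  (C.rational α α.2).choose_spec

lemma tr_comm (α β : C.cyc) : tr C (α * β) = tr C (β * α) := by
  apply (Rat.cast_injective (α := F))
  rw [tr_spec, tr_spec]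
  change LinearMap.trace F V (C.sign * ((α : Module.End F V) * β)) =
    LinearMap.trace F V (C.sign * ((β : Module.End F V) * α))
  rw [← mul_assoc, C.comm α α.2, mul_assoc, LinearMap.trace_mul_comm, mul_assoc]

lemma tr_inter (α β : C.cyc) : ((tr C (α * β) : ℚ) : F) = C.inter α β := by
  rw [tr_spec]
  rfl

/-- correspondences which are nilpotent modulo numerical equivalence have trace zero -/
lemma tr_nil (α : C.cyc) (h : ∃ k : ℕ, α ^ k ∈ Pool.Agent.L7h85.SE.rad (tr C)) : tr C α = 0 := by
  obtain ⟨k, hk⟩ := h
  apply (Rat.cast_injective (α := F))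
  rw [tr_spec, Rat.cast_zero]
  set a : Module.End F V := (α : Module.End F V) with ha
  have hpow : ∀ j : ℕ, LinearMap.trace F V (C.sign * a ^ (k + j)) = 0 := by
    intro j
    have h1 := hk (α ^ j)
    have h2 := tr_spec C (α ^ k * α ^ j)
    rw [h1, Rat.cast_zero] at h2
    rw [h2, pow_add]
    rfl
  have hm0 : minpoly F a ≠ 0 := minpoly.ne_zero_of_finite F a
  obtain ⟨g, hg, hnd⟩ := exists_eq_pow_rootMultiplicity_mul_and_not_dvd (minpoly F a) hm0 0
  set r := (minpoly F a).rootMultiplicity 0 with hr
  rw [C_0, sub_zero] at hg hnd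
  have hcop : IsCoprime ((X : F[X]) ^ (k + r)) g :=
    ((irreducible_X.coprime_iff_not_dvd).2 hnd).pow_left
  obtain ⟨u, v, huv⟩ := hcop
  have hX : (X : F[X]) = X * u * X ^ (k + r) + X * v * g := by
    calc (X : F[X]) = X * (u * X ^ (k + r) + v * g) := by rw [huv, mul_one]
      _ = _ := by ring
  have h1 : a = aeval a (X * u) * a ^ (k + r) + aeval a (X * v * g) := by
    conv_lhs => rw [← aeval_X (R := F) a, hX]
    rw [map_add, map_mul, map_pow, aeval_X]
  have h2 : ∀ w : F[X], LinearMap.trace F V (C.sign * (aeval a w * a ^ (k + r))) = 0 := by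
    intro w
    induction w using Polynomial.induction_on' with
    | add p q hp hq => rw [map_add, add_mul, mul_add, map_add, hp, hq, add_zero]
    | monomial j c =>
      rw [aeval_monomial, ← Algebra.smul_def, smul_mul_assoc, mul_smul_comm, map_smul, ← pow_add]
      have : j + (k + r) = k + (j + r) := by ring
      rw [this, hpow, smul_zero]
  have hsa : Commute C.sign a := C.comm a α.2
  have h3 : IsNilpotent (aeval a (X * v * g)) := by
    refine ⟨r + 1, ?_⟩
    rw [← map_pow]
    have : (X * v * g) ^ (r + 1) = minpoly F a * (X * v ^ (r + 1) * g ^ r) := by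
      rw [hg]
      ring
    rw [this, map_mul, minpoly.aeval, zero_mul]
  have h4 : Commute C.sign (aeval a (X * v * g)) := by
    have : ∀ w : F[X], Commute C.sign (aeval a w) := by
      intro w
      induction w using Polynomial.induction_on' with
      | add p q hp hq => rw [map_add]; exact hp.add_right hq
      | monomial j c =>
        rw [aeval_monomial]
        exact (show Commute C.sign (algebraMap F _ c) from (Algebra.commutes c C.sign).symm).mul_right
          (hsa.pow_right j)
    exact this _
  have h5 : LinearMap.trace F V (C.sign * aeval a (X * v * g)) = 0 :=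
    (LinearMap.isNilpotent_trace_of_isNilpotent (h4.isNilpotent_mul_left h3)).eq_zero
  rw [h1, mul_add, map_add, h2, h5, add_zero]

/-- finitely many numerical conditions define numerical equivalence -/
lemma exists_finset : ∃ s : Finset C.cyc, ∀ α : C.cyc, (∀ β ∈ s, tr C (α * β) = 0) →
    α ∈ Pool.Agent.L7h85.SE.rad (tr C) := by
  classical
  have hfg : (Submodule.span F (C.cyc : Set (Module.End F V))).FG :=
    IsNoetherian.noetherian _
  obtain ⟨s, hs, hspan⟩ := (Submodule.fg_span_iff_fg_span_finset_subset _).1 hfg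
  refine ⟨s.attach.image fun x => ⟨x.1, hs x.2⟩, fun α hα β => ?_⟩
  apply (Rat.cast_injective (α := F))
  rw [Rat.cast_zero, tr_inter]
  have hβ : (β : Module.End F V) ∈ Submodule.span F (s : Set (Module.End F V)) := by
    rw [← hspan]
    exact Submodule.subset_span β.2
  unfold Correspondences.inter
  generalize (β : Module.End F V) = b at hβ ⊢
  induction hβ using Submodule.span_induction with
  | mem x hx =>
    have := hα ⟨x, hs hx⟩ (Finset.mem_image.2 ⟨⟨x, hx⟩, Finset.mem_attach _ _, rfl⟩)
    have h2 := tr_inter C α ⟨x, hs hx⟩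
    rw [this, Rat.cast_zero] at h2
    exact h2.symm
  | zero => rw [mul_zero, mul_zero, map_zero]
  | add x y _ _ hx hy => rw [mul_add, mul_add, map_add, hx, hy, add_zero]
  | smul r x _ hx => rw [mul_smul_comm, mul_smul_comm, map_smul, hx, smul_zero]

lemma numTrivial_iff (α : C.cyc) : α ∈ Pool.Agent.L7h85.SE.rad (tr C) ↔ C.NumTrivial α := by
  constructor
  · intro h
    refine ⟨α.2, fun β hβ => ?_⟩
    have := h ⟨β, hβ⟩
    rw [← tr_inter C α ⟨β, hβ⟩, this, Rat.cast_zero]
  · rintro ⟨-, h⟩ β
    apply (Rat.cast_injective (α := F))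
    rw [tr_inter, Rat.cast_zero]
    exact h β β.2

/-- `f^*` is semisimple modulo numerical equivalence -/
theorem main_num {n q : ℕ} {φ ψ lam : Module.End F V} (h : IsPolarized C n q φ ψ lam) :
    ∃ P : ℚ[X], Squarefree P ∧ C.NumTrivial (aeval φ P) := by
  obtain ⟨s, hs⟩ := exists_finset C
  have hc : ((q : ℚ) ^ n) ≠ 0 := pow_ne_zero _ (by exact_mod_cast h.pos.ne')
  set c : ℚ := (q : ℚ) ^ n with hcdef
  have hcpos : 0 < c := pow_pos (by exact_mod_cast h.pos) _
  let φ' : C.cyc := ⟨φ, h.pull_mem⟩
  let ψ' : C.cyc := ⟨ψ, h.push_mem⟩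
  let l' : C.cyc := ⟨lam, h.ample_mem⟩
  have h2 : ψ' * φ' = algebraMap ℚ C.cyc c := by
    apply Subtype.ext
    change ψ * φ = algebraMap ℚ (Module.End F V) c
    rw [h.push_pull, Algebra.algebraMap_eq_smul_one]
  have h1 : φ' * ψ' = algebraMap ℚ C.cyc c := by
    apply Subtype.ext
    change φ * ψ = algebraMap ℚ (Module.End F V) c
    have e1 : (c⁻¹ • ψ) * φ = 1 := by
      rw [smul_mul_assoc, h.push_pull, smul_smul, inv_mul_cancel₀ hc, one_smul]
    have e2 : φ * (c⁻¹ • ψ) = 1 := mul_eq_one_comm.1 e1
    rw [mul_smul_comm] at e2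
    rw [Algebra.algebraMap_eq_smul_one, ← e2, smul_smul, mul_inv_cancel₀ hc, one_smul]
  have h3 : φ' * l' * ψ' = c • l' := by
    apply Subtype.ext
    exact h.ample_pull
  have h4 : ψ' * l' * φ' = c • l' := by
    have e1 : ψ' * (φ' * l' * ψ') * φ' = (ψ' * φ') * l' * (ψ' * φ') := by noncomm_ring
    rw [h3, h2, ← Algebra.smul_def, ← Algebra.commutes, ← Algebra.smul_def, mul_smul_comm,
      smul_mul_assoc, smul_smul] at e1
    have e2 := congrArg (fun x => c⁻¹ • x) e1
    simp only [smul_smul] at e2
    rw [inv_mul_cancel₀ hc, one_smul, ← mul_assoc, inv_mul_cancel₀ hc, one_mul] at e2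
    exact e2
  have h5 : ∀ y : C.cyc, tr C (φ' * y * ψ' * l') = c * tr C (y * l') := by
    intro y
    have e1 : φ' * y * ψ' * l' = φ' * (y * ψ' * l') := by noncomm_ring
    have e2 : y * ψ' * l' * φ' = y * (ψ' * l' * φ') := by noncomm_ring
    rw [e1, tr_comm, e2, h4, mul_smul_comm, map_smul, smul_eq_mul]
  have h6 : ∀ (k : ℕ) (y : C.cyc), tr C (φ' ^ k * y * ψ' ^ k * l') = c ^ k * tr C (y * l') := by
    intro k y
    induction k with
    | zero => simp
    | succ k ih =>
      have e1 : φ' ^ (k + 1) * y * ψ' ^ (k + 1) * l' = φ' * (φ' ^ k * y * ψ' ^ k) * ψ' * l' := by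
        rw [pow_succ' φ', pow_succ ψ']
        noncomm_ring
      rw [e1, h5, ih, pow_succ']
      ring
  have h7 : ∀ (k : ℕ) (y : C.cyc), (y : Module.End F V) ∈ C.eff →
      ((φ' ^ k * y * ψ' ^ k : C.cyc) : Module.End F V) ∈ C.eff := by
    intro k y hy
    induction k with
    | zero => simpa using hy
    | succ k ih =>
      have e1 : φ' ^ (k + 1) * y * ψ' ^ (k + 1) = φ' * (φ' ^ k * y * ψ' ^ k) * ψ' := by
        rw [pow_succ' φ', pow_succ ψ']
        noncomm_ring
      rw [e1]
      exact h.eff_pull _ ih
  have key : ∀ x ∈ Submodule.span ℚ C.eff, ∀ (hx : x ∈ C.cyc) (b : C.cyc), ∃ D : ℚ, ∀ k : ℕ,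
      |tr C (((c⁻¹) ^ k • (φ' ^ k * ⟨x, hx⟩ * ψ' ^ k)) * b)| ≤ D := by
    intro x hx
    induction hx using Submodule.span_induction with
    | mem x hx =>
      intro hxc b
      obtain ⟨D, hD⟩ := h.bounded b b.2
      refine ⟨D * tr C (⟨x, hxc⟩ * l'), fun k => ?_⟩
      have e1 := hD _ (h7 k ⟨x, hxc⟩ hx) (tr C (φ' ^ k * ⟨x, hxc⟩ * ψ' ^ k * b))
        (tr C (φ' ^ k * ⟨x, hxc⟩ * ψ' ^ k * l')) (tr_inter C _ _) (tr_inter C _ l')
      rw [h6] at e1
      rw [smul_mul_assoc, map_smul, smul_eq_mul, abs_mul, abs_of_pos (pow_pos (inv_pos.2 hcpos) k)]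
      calc (c⁻¹) ^ k * |tr C (φ' ^ k * ⟨x, hxc⟩ * ψ' ^ k * b)|
          ≤ (c⁻¹) ^ k * (D * (c ^ k * tr C (⟨x, hxc⟩ * l'))) :=
            mul_le_mul_of_nonneg_left e1 (pow_pos (inv_pos.2 hcpos) k).le
        _ = ((c⁻¹) ^ k * c ^ k) * (D * tr C (⟨x, hxc⟩ * l')) := by ring
        _ = D * tr C (⟨x, hxc⟩ * l') := by
            rw [← mul_pow, inv_mul_cancel₀ hc, one_pow, one_mul]
    | zero =>
      intro hxc b
      refine ⟨0, fun k => ?_⟩
      have : (⟨0, hxc⟩ : C.cyc) = 0 := rfl
      rw [this]
      simp
    | add x y hx hy ihx ihy =>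
      intro hxc b
      rw [C.span_eff] at hx hy
      obtain ⟨D1, h8⟩ := ihx hx b
      obtain ⟨D2, h9⟩ := ihy hy b
      refine ⟨D1 + D2, fun k => ?_⟩
      have e1 : (⟨x + y, hxc⟩ : C.cyc) = ⟨x, hx⟩ + ⟨y, hy⟩ := rfl
      rw [e1, mul_add, add_mul, smul_add, add_mul, map_add]
      exact (abs_add_le _ _).trans (add_le_add (h8 k) (h9 k))
    | smul r x hx ihx =>
      intro hxc b
      rw [C.span_eff] at hx
      obtain ⟨D1, h8⟩ := ihx hx b
      refine ⟨|r| * D1, fun k => ?_⟩
      have e1 : (⟨r • x, hxc⟩ : C.cyc) = r • ⟨x, hx⟩ := rfl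
      have e2 : ((c⁻¹) ^ k • (φ' ^ k * (r • (⟨x, hx⟩ : C.cyc)) * ψ' ^ k)) * b =
          r • (((c⁻¹) ^ k • (φ' ^ k * ⟨x, hx⟩ * ψ' ^ k)) * b) := by
        rw [mul_smul_comm, smul_mul_assoc r (φ' ^ k * (⟨x, hx⟩ : C.cyc)) (ψ' ^ k), smul_comm _ r,
          smul_mul_assoc r]
      rw [e1, e2, map_smul, smul_eq_mul, abs_mul]
      exact mul_le_mul_of_nonneg_left (h8 k) (abs_nonneg _)
  obtain ⟨P, hP1, hP2⟩ := Pool.Agent.L7h85.SE.core (tr C) s hs (tr_comm C) (tr_nil C) φ' ψ' c hc h1 h2
    (fun a b => key a (by rw [C.span_eff]; exact a.2) a.2 b)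
  refine ⟨P, hP1, ?_⟩
  have h10 := (numTrivial_iff C _).1 hP2
  have h11 : ((aeval φ' P : C.cyc) : Module.End F V) = aeval φ P := by
    have := Polynomial.aeval_algHom_apply C.cyc.val φ' P
    exact this.symm
  rwa [h11] at h10

/-- diagonalizability on a stable subspace -/
theorem diag_on [IsAlgClosed F] (P : ℚ[X]) (hP : Squarefree P) (φ : Module.End F V)
    (U : Submodule F V) (hU : ∀ u ∈ U, φ u ∈ U) (h0 : ∀ u ∈ U, aeval φ P u = 0) :
    U ≤ ⨆ μ : F, φ.eigenspace μ ⊓ U := by
  let φU : Module.End F U := φ.restrict hU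
  have hco : ∀ (Q : F[X]) (u : U), ((aeval φU Q u : U) : V) = aeval φ Q (u : V) := by
    intro Q
    induction Q using Polynomial.induction_on' with
    | add p q hp hq =>
      intro u
      rw [map_add, map_add, LinearMap.add_apply, LinearMap.add_apply, Submodule.coe_add, hp, hq]
    | monomial n r =>
      have hpow : ∀ (n : ℕ) (u : U), (((φU ^ n) u : U) : V) = (φ ^ n) (u : V) := by
        intro n
        induction n with
        | zero => intro u; rfl
        | succ n ih =>
          intro u
          rw [pow_succ', pow_succ', Module.End.mul_apply, Module.End.mul_apply, ← ih]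
          rfl
      intro u
      rw [aeval_monomial, aeval_monomial, Module.End.mul_apply, Module.End.mul_apply,
        Module.algebraMap_end_apply, Module.algebraMap_end_apply, Submodule.coe_smul, hpow]
  have hmap : aeval φ (P.map (algebraMap ℚ F)) = aeval φ P := Polynomial.aeval_map_algebraMap F φ P
  have h1 : aeval φU (P.map (algebraMap ℚ F)) = 0 := by
    ext u
    rw [hco, hmap, h0 u u.2]
    rfl
  have h2 : Squarefree (P.map (algebraMap ℚ F)) :=
    ((PerfectField.separable_iff_squarefree.2 hP).map).squarefree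
  have h3 : φU.IsSemisimple := Module.End.isSemisimple_of_squarefree_aeval_eq_zero h2 h1
  have h4 : ⨆ μ : F, φU.eigenspace μ = ⊤ := by
    rw [← Module.End.iSup_maxGenEigenspace_eq_top φU]
    exact iSup_congr fun μ => (h3.isFinitelySemisimple.maxGenEigenspace_eq_eigenspace μ).symm
  intro u hu
  have h5 : (⟨u, hu⟩ : U) ∈ ⨆ μ : F, φU.eigenspace μ := by rw [h4]; trivial
  have h6 : u ∈ Submodule.map U.subtype (⨆ μ : F, φU.eigenspace μ) := ⟨⟨u, hu⟩, h5, rfl⟩
  rw [Submodule.map_iSup] at h6
  have h7 : (⨆ μ : F, Submodule.map U.subtype (φU.eigenspace μ)) ≤ ⨆ μ : F, φ.eigenspace μ ⊓ U := by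
    refine iSup_mono fun μ => ?_
    rintro _ ⟨x, hx, rfl⟩
    refine ⟨?_, x.2⟩
    rw [SetLike.mem_coe, Module.End.mem_eigenspace_iff] at hx
    change (x : V) ∈ φ.eigenspace μ
    rw [Module.End.mem_eigenspace_iff]
    exact congrArg Subtype.val hx
  exact h7 h6

/-- the vectors killed by a squarefree polynomial of `φ` are sums of eigenvectors -/
theorem le_eigen [IsAlgClosed F] (P : ℚ[X]) (hP : Squarefree P) (φ : Module.End F V)
    (U : Submodule F V) (h0 : ∀ u ∈ U, aeval φ P u = 0) : U ≤ ⨆ μ : F, φ.eigenspace μ := by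
  have hcomm : ∀ u, aeval φ P (φ u) = φ (aeval φ P u) := by
    intro u
    have h1 : aeval φ (P * X) = aeval φ (X * P) := by rw [mul_comm]
    rw [map_mul, map_mul, aeval_X] at h1
    have h2 := congrArg (fun f => f u) h1
    simpa only [Module.End.mul_apply] using h2
  have h1 := diag_on P hP φ (LinearMap.ker (aeval φ P)) (fun u hu => by
    rw [LinearMap.mem_ker] at hu ⊢
    rw [hcomm, hu, map_zero]) (fun u hu => hu)
  have h2 : (⨆ μ : F, φ.eigenspace μ ⊓ LinearMap.ker (aeval φ P)) ≤ ⨆ μ : F, φ.eigenspace μ :=
    iSup_mono fun μ => inf_le_left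
  intro u hu
  exact h2 (h1 (show u ∈ LinearMap.ker (aeval φ P) from h0 u hu))

/-- if `φ` is multiplicative, the sum of its eigenspaces is closed under multiplication -/
theorem mul_eigen (φ : Module.End F V) (m : V →ₗ[F] V →ₗ[F] V)
    (hm : ∀ x y, φ (m x y) = m (φ x) (φ y)) :
    ∀ x ∈ ⨆ μ : F, φ.eigenspace μ, ∀ y ∈ ⨆ μ : F, φ.eigenspace μ, m x y ∈ ⨆ μ : F, φ.eigenspace μ := by
  intro x hx y hy
  induction hx using Submodule.iSup_induction' with
  | mem μ x hx =>
    induction hy using Submodule.iSup_induction' with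
    | mem ν y hy =>
      refine Submodule.mem_iSup_of_mem (μ * ν) ?_
      rw [Module.End.mem_eigenspace_iff] at hx hy ⊢
      rw [hm, hx, hy, map_smul, map_smul, LinearMap.smul_apply, smul_smul, mul_comm]
    | zero => rw [map_zero]; exact Submodule.zero_mem _
    | add y y' _ _ h h' => rw [map_add]; exact Submodule.add_mem _ h h'
  | zero => rw [map_zero, LinearMap.zero_apply]; exact Submodule.zero_mem _
  | add x x' _ _ h h' => rw [map_add, LinearMap.add_apply]; exact Submodule.add_mem _ h h'

end proofs

/-- if the motive of `X` is a summand of the motive of `Y`, `hom = num` on `Y × Y` implies `hom = num` on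
`X × X` -/
theorem homEqNum_of_summand {F V W : Type} [Field F] [CharZero F] [AddCommGroup V] [Module F V]
    [Module ℚ V] [FiniteDimensional F V] [AddCommGroup W] [Module F W] [Module ℚ W]
    [FiniteDimensional F W] {CX : Correspondences F V} {CY : Correspondences F W} {i : V →ₗ[F] W}
    {p : W →ₗ[F] V} (h : IsSummand CX CY i p) (hY : CY.HomEqNum) : CX.HomEqNum := by
  rintro α ⟨hα, hn⟩
  have h1 : i ∘ₗ α ∘ₗ p = 0 := by
    refine hY _ ⟨h.push α hα, fun β hβ => ?_⟩
    have h2 := hn _ (h.pull β hβ)
    unfold Correspondences.inter at h2 ⊢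
    have e1 : CY.sign * ((i ∘ₗ α ∘ₗ p) * β) = i ∘ₗ (CX.sign ∘ₗ α ∘ₗ p ∘ₗ β) := by
      ext w
      simp [h.sign]
    have e2 : CX.sign * (α * (p ∘ₗ β ∘ₗ i)) = (CX.sign ∘ₗ α ∘ₗ p ∘ₗ β) ∘ₗ i := by
      ext w
      simp
    rw [e1, LinearMap.trace_comp_comm', ← e2]
    exact h2
  ext v
  have h3 := congrArg (fun f => p (f (i v))) h1
  simp only [LinearMap.comp_apply, h.split, LinearMap.zero_apply, map_zero] at h3
  rw [h3, LinearMap.zero_apply]

/-- semisimple Frobenius and Tate classes spanned by cycles imply `hom = num` -/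
theorem homEqNum_of_tate {F V : Type} [Field F] [CharZero F] [IsAlgClosed F] [AddCommGroup V]
    [Module F V] [Module ℚ V] [FiniteDimensional F V] {C : Correspondences F V} {Fr : Module.End F V}
    (h : IsTate C Fr) : C.HomEqNum := by
  rintro α ⟨hα, hn⟩
  have h0 : ∀ β : Module.End F V, β * Fr = Fr * β → LinearMap.trace F V (α * β) = 0 := by
    intro β hβ
    have h1 : (β * C.sign) * Fr = Fr * (β * C.sign) := by
      rw [mul_assoc, h.sign, ← mul_assoc, hβ, mul_assoc]
    have h2 : ∀ x ∈ Submodule.span F (C.cyc : Set (Module.End F V)),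
        LinearMap.trace F V (C.sign * (α * x)) = 0 := by
      intro x hx
      induction hx using Submodule.span_induction with
      | mem x hx => exact hn x hx
      | zero => rw [mul_zero, mul_zero, map_zero]
      | add x y _ _ hx hy => rw [mul_add, mul_add, map_add, hx, hy, add_zero]
      | smul r x _ hx => rw [mul_smul_comm, mul_smul_comm, map_smul, hx, smul_zero]
    have h3 := h2 _ (h.tate _ h1)
    rw [LinearMap.trace_mul_comm] at h3
    have h4 : α * (β * C.sign) * C.sign = α * β := by
      rw [mul_assoc, mul_assoc β, C.sign_sq, mul_one]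
    rwa [h4] at h3
  have hgen : ∀ μ : F, Fr.maxGenEigenspace μ = Fr.eigenspace μ := fun μ =>
    h.semisimple.isFinitelySemisimple.maxGenEigenspace_eq_eigenspace μ
  have htop : ⨆ μ : F, Fr.eigenspace μ = ⊤ := by
    rw [← Module.End.iSup_maxGenEigenspace_eq_top Fr]
    exact iSup_congr fun μ => (hgen μ).symm
  have hker : ∀ μ : F, Fr.eigenspace μ ≤ LinearMap.ker α := by
    intro μ v hv
    rw [LinearMap.mem_ker]
    by_contra hne
    have hv' : Fr v = μ • v := Module.End.mem_eigenspace_iff.1 hv
    have hw : Fr (α v) = μ • α v := by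
      have := congrArg (fun f => f v) (h.comm α hα)
      simp only [Module.End.mul_apply] at this
      rw [← this, hv', map_smul]
    have hnot : α v ∉ LinearMap.range (Fr - algebraMap F (Module.End F V) μ) := by
      rintro ⟨y, hy⟩
      have e1 : y ∈ Fr.maxGenEigenspace μ := by
        rw [Module.End.mem_maxGenEigenspace]
        refine ⟨2, ?_⟩
        rw [← Algebra.algebraMap_eq_smul_one, pow_two, Module.End.mul_apply, hy,
          LinearMap.sub_apply, Module.algebraMap_end_apply, hw, sub_self]
      rw [hgen, Module.End.mem_eigenspace_iff] at e1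
      rw [LinearMap.sub_apply, Module.algebraMap_end_apply, e1, sub_self] at hy
      exact hne hy.symm
    obtain ⟨l, hl1, hl2⟩ := Submodule.exists_dual_map_eq_bot_of_notMem hnot inferInstance
    have hl3 : ∀ x, l (Fr x) = μ * l x := by
      intro x
      have : l ((Fr - algebraMap F (Module.End F V) μ) x) ∈
          (LinearMap.range (Fr - algebraMap F (Module.End F V) μ)).map l := ⟨_, ⟨x, rfl⟩, rfl⟩
      rw [hl2, Submodule.mem_bot, LinearMap.sub_apply, Module.algebraMap_end_apply, map_sub, map_smul,
        smul_eq_mul, sub_eq_zero] at this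
      exact this
    have h5 := h0 (l.smulRight v) (by
      ext x
      simp only [Module.End.mul_apply, LinearMap.smulRight_apply]
      rw [hl3, map_smul, hv', smul_smul, mul_comm])
    have h6 : α * l.smulRight v = l.smulRight (α v) := by
      ext x
      simp only [Module.End.mul_apply, LinearMap.smulRight_apply, map_smul]
    rw [h6, LinearMap.trace_smulRight] at h5
    exact hl1 h5
  have : (⊤ : Submodule F V) ≤ LinearMap.ker α := by
    rw [← htop]
    exact iSup_le hker
  exact LinearMap.ker_eq_top.1 (top_le_iff.1 this)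

/-- Let `f` be a polarized endomorphism of a smooth projective variety `X` over an algebraically closed field.
1. There is a squarefree polynomial `P` with rational coefficients such that `P(f^*)` is numerically
trivial.
2. If the numerically trivial correspondences are zero on a subspace `U` of `H^*(X)`, then the subring of
`H^*(X)` generated by `U` is contained in the sum of the eigenspaces of `f^*`; so `f^*` is diagonalizable, if
`U` generates `H^*(X)`.
3. Let the motive of `X` be a direct summand of the motive of `Y`, and let homological and numerical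
equivalence agree on `Y × Y`; or let `Y` be a variety over a finite field with a semisimple Frobenius, such
that the Tate conjecture holds for `Y × Y` in codimension `dim Y`. Then `f^*` is diagonalizable on `H^*(X)`,
and `f'^*` on `H^*(X')` for every `(X', f')` which specializes to `(X, f)`: there is an isomorphism of the
cohomology, compatible with `f'^*` and `f^*`. -/
theorem result {F V : Type} [Field F] [CharZero F] [IsAlgClosed F] [AddCommGroup V] [Module F V]
    [Module ℚ V] [FiniteDimensional F V] (CX : Correspondences F V) (n q : ℕ)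
    (φ ψ lam : Module.End F V) (h : IsPolarized CX n q φ ψ lam) :
    (∃ P : ℚ[X], Squarefree P ∧ CX.NumTrivial (aeval φ P)) ∧
    (∀ U : Submodule F V, (∀ α, CX.NumTrivial α → ∀ u ∈ U, α u = 0) →
      ∀ m : V →ₗ[F] V →ₗ[F] V, (∀ x y, φ (m x y) = m (φ x) (φ y)) →
      ∀ S : Submodule F V, GeneratedBy m U S → S ≤ ⨆ μ : F, φ.eigenspace μ) ∧
    (∀ (W : Type) [AddCommGroup W] [Module F W] [Module ℚ W] [FiniteDimensional F W]
      (CY : Correspondences F W) (i : V →ₗ[F] W) (p : W →ₗ[F] V), IsSummand CX CY i p →
      (CY.HomEqNum ∨ ∃ Fr : Module.End F W, IsTate CY Fr) → ∀ (V' : Type) [AddCommGroup V'] [Module F V'] (φ' : Module.End F V')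
      (e : V' ≃ₗ[F] V), (∀ v, e (φ' v) = φ (e v)) → ⨆ μ : F, φ'.eigenspace μ = ⊤) := by
  obtain ⟨P, hP, hn⟩ := main_num CX h
  refine ⟨⟨P, hP, hn⟩, fun U h0 m hm S hS => hS _ (le_eigen P hP φ U (h0 _ hn))
    (mul_eigen φ m hm), ?_⟩
  intro W _ _ _ _ CY i p hs hY V' _ _ φ' e he
  have hY' : CY.HomEqNum := by
    rcases hY with hY | ⟨Fr, hFr⟩
    · exact hY
    · exact homEqNum_of_tate hFr
  have h1 := homEqNum_of_summand hs hY' _ hn
  have h2 := diag_on P hP φ ⊤ (fun _ _ => trivial) (fun u _ => by rw [h1, LinearMap.zero_apply])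
  rw [top_le_iff] at h2
  have h3 : (⊤ : Submodule F V') ≤ Submodule.comap e.toLinearMap (⨆ μ : F, φ.eigenspace μ ⊓ ⊤) := by
    rw [h2]
    exact le_of_eq rfl
  rw [← top_le_iff]
  refine h3.trans ?_
  intro v hv
  have h4 : e v ∈ ⨆ μ : F, φ.eigenspace μ ⊓ ⊤ := hv
  have h5 : v ∈ Submodule.map e.symm.toLinearMap (⨆ μ : F, φ.eigenspace μ ⊓ ⊤) :=
    ⟨e v, h4, e.symm_apply_apply v⟩
  rw [Submodule.map_iSup] at h5
  have h6 : (⨆ μ : F, Submodule.map e.symm.toLinearMap (φ.eigenspace μ ⊓ ⊤)) ≤
      ⨆ μ : F, φ'.eigenspace μ := by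
    refine iSup_mono fun μ => ?_
    rintro _ ⟨x, hx, rfl⟩
    have hx' : φ x = μ • x := Module.End.mem_eigenspace_iff.1 hx.1
    rw [Module.End.mem_eigenspace_iff]
    change φ' (e.symm x) = μ • e.symm x
    apply e.injective
    rw [he, e.apply_symm_apply, map_smul, e.apply_symm_apply, hx']
  exact h6 h5

end Pool.Agent.Results.MP_e95b71_ag.ModuloNumerical
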